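import Pool.Agent.H33R3.Bom.Stmts

set_option autoImplicit false

namespace Pool.Agent.H33R3.Bom

open Complex Metric Set Filter Topology

theorem taskC2 : TaskC2 := by
  intro Y hY R hR1 ζ hζ0 hζR δ hδ
  have hR0 : 0 < R := lt_of_le_of_lt (norm_nonneg ζ) hζR
  set g : ℂ → ℂ := fun z => Y z / z with hg
  have hgcont : ContinuousOn g (ball (0 : ℂ) 1 \ {0}) := by
    apply ContinuousOn.div
    · exact hY.diff.continuousOn.mono diff_subset
    · exact continuousOn_id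
    · intro z hz; exact hz.2
  have hsph : ∀ z : sphere (0 : ℂ) R, (z : ℂ) ∈ ball (0 : ℂ) 1 \ {0} := by
    intro z
    have h1 : ‖(z : ℂ)‖ = R := by simpa using z.2
    refine ⟨by simp [h1, hR1], ?_⟩
    intro h
    simp only [mem_singleton_iff] at h
    rw [h] at h1; simp at h1; linarith
  let x : C(sphere (0 : ℂ) R, ℂ) := ⟨fun z => g z, by
    exact hgcont.comp_continuous continuous_subtype_val hsph⟩
  let A := Algebra.elemental ℂ x
  haveI hA : IsClosed ((A : Subalgebra ℂ C(sphere (0 : ℂ) R, ℂ)) : Set C(sphere (0 : ℂ) R, ℂ)) :=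
    Algebra.elemental.isClosed ℂ x
  let xA : A := ⟨x, Algebra.elemental.self_mem ℂ x⟩
  -- the curve
  have hseg : ∀ t ∈ Ioc (0 : ℝ) 1, (t : ℂ) * ζ ∈ ball (0 : ℂ) 1 \ {0} ∧ ‖(t : ℂ) * ζ‖ < R := by
    intro t ht
    have h1 : ‖(t : ℂ) * ζ‖ = t * ‖ζ‖ := by
      rw [norm_mul, Complex.norm_real, Real.norm_eq_abs, abs_of_pos ht.1]
    have h2 : t * ‖ζ‖ ≤ ‖ζ‖ := by
      have := norm_nonneg ζ
      nlinarith [ht.2]
    have h3 : ‖(t : ℂ) * ζ‖ < R := by rw [h1]; linarith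
    refine ⟨⟨by simp only [mem_ball_zero_iff]; linarith, ?_⟩, h3⟩
    simp only [mem_singleton_iff, mul_eq_zero, hζ0, or_false]
    exact_mod_cast ht.1.ne'
  set C : Set ℂ := (fun t : ℝ => g ((t : ℂ) * ζ)) '' Ioc (0 : ℝ) 1 with hC
  have hCpre : IsPreconnected C := by
    apply isPreconnected_Ioc.image
    apply ContinuousOn.comp (t := ball (0 : ℂ) 1 \ {0}) hgcont
    · exact (by fun_prop : Continuous fun t : ℝ => (t : ℂ) * ζ).continuousOn
    · intro t ht; exact (hseg t ht).1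
  have hspec : C ⊆ (spectrum ℂ x)ᶜ := by
    rintro w ⟨t, ht, rfl⟩
    rw [mem_compl_iff, ContinuousMap.spectrum_eq_range]
    rintro ⟨z, hz⟩
    have hz' : g z = g ((t : ℂ) * ζ) := hz
    have := hY.inj (hsph z) (hseg t ht).1 hz'
    have h1 : ‖(z : ℂ)‖ = R := by simpa using z.2
    have h2 := (hseg t ht).2
    rw [← this, h1] at h2
    exact lt_irrefl _ h2
  have hζC : g ζ ∈ C := ⟨1, by simp, by simp⟩
  have hunb : ¬ Bornology.IsBounded C := by
    intro hb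
    obtain ⟨M, hM⟩ := hb.exists_norm_le
    -- Y (tζ) → 1, so g(tζ) is large
    have hYc : ContinuousAt Y 0 := (hY.diff.differentiableAt (ball_mem_nhds _ one_pos)).continuousAt
    have h1 : Tendsto (fun t : ℝ => Y ((t : ℂ) * ζ)) (𝓝[>] 0) (𝓝 1) := by
      have h2 : Tendsto (fun t : ℝ => (t : ℂ) * ζ) (𝓝[>] 0) (𝓝 0) := by
        have : Tendsto (fun t : ℝ => (t : ℂ) * ζ) (𝓝 0) (𝓝 (((0 : ℝ) : ℂ) * ζ)) :=
          (by fun_prop : Continuous fun t : ℝ => (t : ℂ) * ζ).tendsto 0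
        simp only [Complex.ofReal_zero, zero_mul] at this
        exact this.mono_left nhdsWithin_le_nhds
      have h3 := hYc.tendsto.comp h2
      rw [hY.one] at h3
      exact h3
    have h4 : Tendsto (fun t : ℝ => (M + 1) * ((t : ℝ) * ‖ζ‖)) (𝓝[>] 0) (𝓝 0) := by
      have : Tendsto (fun t : ℝ => (M + 1) * ((t : ℝ) * ‖ζ‖)) (𝓝 0) (𝓝 ((M + 1) * ((0 : ℝ) * ‖ζ‖))) :=
        (by fun_prop : Continuous fun t : ℝ => (M + 1) * ((t : ℝ) * ‖ζ‖)).tendsto 0
      simp only [zero_mul, mul_zero] at this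
      exact this.mono_left nhdsWithin_le_nhds
    have h5 : Tendsto (fun t : ℝ => ‖Y ((t : ℂ) * ζ)‖) (𝓝[>] 0) (𝓝 1) := by
      simpa using h1.norm
    have h6 : ∀ᶠ t : ℝ in 𝓝[>] 0, (M + 1) * (t * ‖ζ‖) < ‖Y ((t : ℂ) * ζ)‖ :=
      h4.eventually_lt h5 one_pos
    have h7 : ∀ᶠ t : ℝ in 𝓝[>] 0, t ∈ Ioc (0 : ℝ) 1 := Ioc_mem_nhdsGT one_pos
    obtain ⟨t, ht1, ht2⟩ := (h6.and h7).exists
    have h8 := hM _ (mem_image_of_mem _ ht2)
    have h9 : ‖g ((t : ℂ) * ζ)‖ = ‖Y ((t : ℂ) * ζ)‖ / (t * ‖ζ‖) := by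
      rw [hg]; simp only [norm_div, norm_mul, Complex.norm_real, Real.norm_eq_abs, abs_of_pos ht2.1]
    have hpos : 0 < t * ‖ζ‖ := mul_pos ht2.1 (norm_pos_iff.mpr hζ0)
    rw [h9, div_le_iff₀ hpos] at h8
    nlinarith
  have hnot : g ζ ∉ spectrum ℂ xA := by
    intro h
    have h1 := Subalgebra.spectrum_isBounded_connectedComponentIn A xA h
    apply hunb
    apply h1.subset
    apply hCpre.subset_connectedComponentIn hζC
    exact hspec
  rw [spectrum.notMem_iff] at hnot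
  obtain ⟨u, hu⟩ := hnot
  -- the inverse
  have hinv : ((u⁻¹ : Aˣ) : A) ∈ (⊤ : Set A) := trivial
  set v : C(sphere (0 : ℂ) R, ℂ) := (((u⁻¹ : Aˣ) : A) : C(sphere (0 : ℂ) R, ℂ)) with hv
  have hvx : v * (algebraMap ℂ _ (g ζ) - x) = 1 := by
    have h1 : ((u⁻¹ : Aˣ) : A) * (algebraMap ℂ A (g ζ) - xA) = 1 := by
      rw [← hu]; exact u.inv_mul
    have h2 := congrArg (fun a : A => (a : C(sphere (0 : ℂ) R, ℂ))) h1
    simpa using h2
  have hvz : ∀ z : sphere (0 : ℂ) R, v z = (g ζ - g z)⁻¹ := by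
    intro z
    have h1 := congrArg (fun f : C(sphere (0 : ℂ) R, ℂ) => f z) hvx
    have h2 : v z * (g ζ - g z) = 1 := by
      have h3 : v z * (g ζ - x z) = 1 := by simpa using h1
      exact h3
    exact eq_inv_of_mul_eq_one_left h2
  have hvmem : v ∈ closure ((Algebra.adjoin ℂ {x} : Subalgebra ℂ C(sphere (0 : ℂ) R, ℂ)) :
      Set C(sphere (0 : ℂ) R, ℂ)) := by
    have : v ∈ A := ((u⁻¹ : Aˣ) : A).2
    exact this
  rw [Metric.mem_closure_iff] at hvmem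
  obtain ⟨p, hp, hpd⟩ := hvmem δ hδ
  have hp' : p ∈ (Algebra.adjoin ℂ {x} : Subalgebra ℂ C(sphere (0 : ℂ) R, ℂ)) := hp
  rw [Algebra.adjoin_singleton_eq_range_aeval] at hp'
  obtain ⟨q, hq⟩ := hp'
  refine ⟨q, fun z hz => ?_⟩
  let zz : sphere (0 : ℂ) R := ⟨z, by simpa using hz⟩
  have h1 := ContinuousMap.dist_apply_le_dist (f := v) (g := p) zz
  have h2 : p zz = q.eval (g z) := by
    rw [← hq]
    have h3 : (Polynomial.aeval x q) zz = Polynomial.aeval (x zz) q := by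
      exact (Polynomial.aeval_algHom_apply (ContinuousMap.evalAlgHom ℂ ℂ zz) x q).symm
    refine Eq.trans h3 ?_
    rw [Polynomial.coe_aeval_eq_eval]
    rfl
  rw [hvz zz, h2, dist_eq_norm, norm_sub_rev] at h1
  exact h1.trans hpd.le

end Pool.Agent.H33R3.Bom
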